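import Mathlib

/-!
# Giuga numbers: divisors and congruences
-/

set_option autoImplicit false

open Finset

namespace Pool.Agent.H11.GIU

/-- Giuga numbers. -/
def Giu (n : ℕ) : Prop := 1 < n ∧ ¬ n.Prime ∧ ∀ p : ℕ, p.Prime → p ∣ n → p ∣ n / p - 1

lemma Giu.sq {n : ℕ} (h : Giu n) : Squarefree n := by
  rw [Nat.squarefree_iff_prime_squarefree]
  intro p hp hpn
  have h1 : p ∣ n := dvd_trans (dvd_mul_right p p) hpn
  have h2 : p ∣ n / p := by
    obtain ⟨k, hk⟩ := hpn
    refine ⟨k, ?_⟩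
    rw [hk, mul_assoc, Nat.mul_div_cancel_left _ hp.pos]
  have h3 := h.2.2 p hp h1
  have h4 : 1 ≤ n / p := Nat.div_pos (Nat.le_of_dvd (by have := h.1; omega) h1) hp.pos
  have h5 : p ∣ 1 := by
    have := (Nat.dvd_sub h2 h3)
    rwa [show n / p - (n / p - 1) = 1 by omega] at this
  exact hp.one_lt.ne' (Nat.dvd_one.mp h5)

/-- In integers. -/
lemma Giu.int {n : ℕ} (h : Giu n) {p : ℕ} (hp : p.Prime) (hpn : p ∣ n) :
    (p : ℤ) ∣ ((n / p : ℕ) : ℤ) - 1 := by
  have h3 := h.2.2 p hp hpn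
  have h4 : 1 ≤ n / p := Nat.div_pos (Nat.le_of_dvd (by have := h.1; omega) hpn) hp.pos
  have := Int.natCast_dvd_natCast.mpr h3
  rwa [Nat.cast_sub h4, Nat.cast_one] at this

/-- The product of the prime factors in a set divides what is divisible by all of them. -/
lemma prod_dvd {V : Finset ℕ} (hV : ∀ p ∈ V, p.Prime) {z : ℤ} (h : ∀ p ∈ V, (p : ℤ) ∣ z) :
    ((∏ p ∈ V, p : ℕ) : ℤ) ∣ z := by
  rw [Int.natCast_dvd]
  refine Finset.prod_primes_dvd _ (fun p hp => (hV p hp).prime) fun p hp => ?_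
  exact Int.natCast_dvd.mp (h p hp)

/-- Two Giuga numbers with the common divisor `D` are congruent modulo `D ^ 2`. -/
lemma Giu.modEq {n₁ n₂ D : ℕ} (h₁ : Giu n₁) (h₂ : Giu n₂) (hD₁ : D ∣ n₁) (hD₂ : D ∣ n₂) :
    n₁ ≡ n₂ [MOD D ^ 2] := by
  have hD0 : 0 < D := Nat.pos_of_dvd_of_pos hD₁ (by have := h₁.1; omega)
  have hDs : Squarefree D := h₁.sq.squarefree_of_dvd hD₁
  obtain ⟨e₁, rfl⟩ := hD₁
  obtain ⟨e₂, rfl⟩ := hD₂
  have key : (D : ℤ) ∣ (e₁ : ℤ) - e₂ := by
    have h := prod_dvd (V := D.primeFactors) (z := (e₁ : ℤ) - e₂)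
      (fun p hp => Nat.prime_of_mem_primeFactors hp) ?_
    · rwa [Nat.prod_primeFactors_of_squarefree hDs] at h
    · intro q hq
      have hqp := Nat.prime_of_mem_primeFactors hq
      obtain ⟨c, hc⟩ := Nat.dvd_of_mem_primeFactors hq
      have hcq : ¬ q ∣ c := by
        intro hqc
        have : q * q ∣ D := by
          rw [hc]
          exact Nat.mul_dvd_mul_left q hqc
        exact hqp.one_lt.ne' (Nat.isUnit_iff.mp (hDs q this))
      have i₁ := h₁.int hqp (dvd_trans ⟨c, hc⟩ (dvd_mul_right D e₁))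
      have i₂ := h₂.int hqp (dvd_trans ⟨c, hc⟩ (dvd_mul_right D e₂))
      have d₁ : D * e₁ / q = c * e₁ := by
        rw [hc, mul_assoc, Nat.mul_div_cancel_left _ hqp.pos]
      have d₂ : D * e₂ / q = c * e₂ := by
        rw [hc, mul_assoc, Nat.mul_div_cancel_left _ hqp.pos]
      rw [d₁] at i₁
      rw [d₂] at i₂
      have i₃ : (q : ℤ) ∣ (c : ℤ) * ((e₁ : ℤ) - e₂) := by
        have := dvd_sub i₁ i₂
        push_cast at this
        have e : (c : ℤ) * ((e₁ : ℤ) - e₂) = (c : ℤ) * e₁ - 1 - (c * e₂ - 1) := by ring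
        rw [e]
        exact this
      rcases (Nat.prime_iff_prime_int.mp hqp).dvd_or_dvd i₃ with h | h
      · exact absurd (Int.natCast_dvd_natCast.mp h) hcq
      · exact h
  rw [Nat.modEq_iff_dvd]
  push_cast
  have : ((D : ℤ) ^ 2) ∣ (D : ℤ) * ((e₁ : ℤ) - e₂) := by
    rw [pow_two]
    exact mul_dvd_mul_left _ key
  have h2 := (dvd_neg.mpr this)
  have e : (D : ℤ) * e₂ - D * e₁ = -((D : ℤ) * ((e₁ : ℤ) - e₂)) := by ring
  rw [e]
  exact h2

/-- Prime factors are at most `ω (n)` times the product of the smaller ones. -/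
lemma Giu.lt {n : ℕ} (h : Giu n) {p : ℕ} (hp : p ∈ n.primeFactors) :
    p < n.primeFactors.card * ∏ q ∈ n.primeFactors.filter (· < p), q := by
  classical
  have hn0 : 0 < n := by have := h.1; omega
  have hpp := Nat.prime_of_mem_primeFactors hp
  have hpn := Nat.dvd_of_mem_primeFactors hp
  obtain ⟨S, hS⟩ : ∃ S, S = n.primeFactors := ⟨_, rfl⟩
  have hSp : ∀ q ∈ S, q.Prime := fun q hq => Nat.prime_of_mem_primeFactors (hS ▸ hq)
  have hSn : ∀ q ∈ S, q ∣ n := fun q hq => Nat.dvd_of_mem_primeFactors (hS ▸ hq)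
  have hprod : (∏ q ∈ S.filter (· < p), q) * ∏ q ∈ S.filter (fun q => ¬ q < p), q = n := by
    rw [Finset.prod_filter_mul_prod_filter_not, hS, Nat.prod_primeFactors_of_squarefree h.sq]
  obtain ⟨V, hV⟩ : ∃ V, V = S.filter (fun q => ¬ q < p) := ⟨_, rfl⟩
  rw [← hV] at hprod
  have hpV : p ∈ V := by
    rw [hV, Finset.mem_filter]
    exact ⟨hS ▸ hp, lt_irrefl p⟩
  have hVS : ∀ q ∈ V, q ∈ S := fun q hq => by
    rw [hV] at hq
    exact (Finset.mem_filter.mp hq).1
  have hVp : ∀ q ∈ V, p ≤ q := fun q hq => by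
    rw [hV] at hq
    exact not_lt.mp (Finset.mem_filter.mp hq).2
  -- divisibility
  have hdiv : ((∏ q ∈ V, q : ℕ) : ℤ) ∣ (∑ q ∈ V, ((n / q : ℕ) : ℤ)) - 1 := by
    refine prod_dvd (fun q hq => hSp q (hVS q hq)) fun q hq => ?_
    rw [← Finset.add_sum_erase V _ hq]
    have h1 := h.int (hSp q (hVS q hq)) (hSn q (hVS q hq))
    have h2 : (q : ℤ) ∣ ∑ r ∈ V.erase q, ((n / r : ℕ) : ℤ) := by
      refine Finset.dvd_sum fun r hr => ?_
      rw [Int.natCast_dvd_natCast]
      have hrV := Finset.mem_of_mem_erase hr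
      have hrq : r ≠ q := Finset.ne_of_mem_erase hr
      have hrp := hSp r (hVS r hrV)
      have hco : Nat.Coprime q r := (Nat.coprime_primes (hSp q (hVS q hq)) hrp).mpr hrq.symm
      obtain ⟨c, hc⟩ := hSn r (hVS r hrV)
      rw [hc, Nat.mul_div_cancel_left _ hrp.pos]
      have h3 : q ∣ r * c := hc ▸ hSn q (hVS q hq)
      exact hco.dvd_of_dvd_mul_left h3
    have := dvd_add h1 h2
    have e : ((n / q : ℕ) : ℤ) + ∑ r ∈ V.erase q, ((n / r : ℕ) : ℤ) - 1 =
      ((n / q : ℕ) : ℤ) - 1 + ∑ r ∈ V.erase q, ((n / r : ℕ) : ℤ) := by ring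
    rw [e]
    exact this
  -- size
  have hge : (2 : ℤ) ≤ ∑ q ∈ V, ((n / q : ℕ) : ℤ) := by
    have h1 : 2 ≤ n / p := by
      obtain ⟨c, hc⟩ := hpn
      rw [hc, Nat.mul_div_cancel_left _ hpp.pos]
      have hc0 : c ≠ 0 := by
        rintro rfl
        rw [mul_zero] at hc
        omega
      have hc1 : c ≠ 1 := by
        rintro rfl
        rw [mul_one] at hc
        exact h.2.1 (hc ▸ hpp)
      omega
    have h2 : ((n / p : ℕ) : ℤ) ≤ ∑ q ∈ V, ((n / q : ℕ) : ℤ) :=
      Finset.single_le_sum (f := fun q => ((n / q : ℕ) : ℤ)) (fun q _ => by positivity) hpV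
    have : (2 : ℤ) ≤ ((n / p : ℕ) : ℤ) := by exact_mod_cast h1
    omega
  have hle := Int.le_of_dvd (by omega) hdiv
  have hup : ∑ q ∈ V, (n / q) ≤ S.card * (n / p) := by
    calc ∑ q ∈ V, (n / q) ≤ ∑ _q ∈ V, (n / p) :=
          Finset.sum_le_sum fun q hq => Nat.div_le_div_left (hVp q hq) hpp.pos
      _ = V.card * (n / p) := by rw [Finset.sum_const, smul_eq_mul]
      _ ≤ S.card * (n / p) := Nat.mul_le_mul_right _ (Finset.card_le_card hVS)
  have hlt : (∏ q ∈ V, q) < S.card * (n / p) := by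
    have h1 : ((∏ q ∈ V, q : ℕ) : ℤ) < ((∑ q ∈ V, (n / q) : ℕ) : ℤ) := by
      push_cast
      push_cast at hle
      linarith
    have h2 : (∏ q ∈ V, q) < ∑ q ∈ V, (n / q) := by exact_mod_cast h1
    omega
  -- conclusion
  have hV0 : 0 < ∏ q ∈ V, q := Finset.prod_pos fun q hq => (hSp q (hVS q hq)).pos
  have h1 : p * ∏ q ∈ V, q < S.card * n := by
    calc p * ∏ q ∈ V, q < p * (S.card * (n / p)) := Nat.mul_lt_mul_of_pos_left hlt hpp.pos
      _ = S.card * (p * (n / p)) := by ring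
      _ = S.card * n := by rw [Nat.mul_div_cancel' hpn]
  rw [← hprod, ← mul_assoc] at h1
  rw [hS] at h1 hprod
  rw [← hS] at h1
  rw [← hS]
  exact lt_of_mul_lt_mul_right h1 (Nat.zero_le _)

/-- Dense divisors: a greedy choice. -/
lemma greedy (R : ℝ) (S : Finset ℕ) :
    (∀ p ∈ S, 0 < p) → (∀ p ∈ S, (p : ℝ) < R * ∏ q ∈ S.filter (· < p), (q : ℝ)) →
    ∀ y : ℝ, 1 ≤ y → ∃ T ⊆ S, ∏ q ∈ T, (q : ℝ) ≤ y ∧ (T = S ∨ y < R * ∏ q ∈ T, (q : ℝ)) := by
  classical
  refine Finset.induction_on_max S (fun _ _ y hy => ⟨∅, subset_rfl, by simpa using hy, Or.inl rfl⟩) ?_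
  intro a s has ih hpos hS y hy
  have hs : ∀ p ∈ s, (p : ℝ) < R * ∏ q ∈ s.filter (· < p), (q : ℝ) := by
    intro p hp
    have h1 := hS p (Finset.mem_insert_of_mem hp)
    have h2 : (insert a s).filter (· < p) = s.filter (· < p) := by
      rw [Finset.filter_insert, if_neg (not_lt.mpr (has p hp).le)]
    rwa [h2] at h1
  have ha : (a : ℝ) < R * ∏ q ∈ s, (q : ℝ) := by
    have h1 := hS a (Finset.mem_insert_self a s)
    have h2 : (insert a s).filter (· < a) = s := by
      rw [Finset.filter_insert, if_neg (lt_irrefl a)]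
      exact Finset.filter_true_of_mem has
    rwa [h2] at h1
  have has' : a ∉ s := fun h => lt_irrefl a (has a h)
  have ha0 : (0 : ℝ) < a := by exact_mod_cast hpos a (Finset.mem_insert_self a s)
  have ih' := ih (fun p hp => hpos p (Finset.mem_insert_of_mem hp)) hs
  rcases le_or_gt (a : ℝ) y with h | h
  · obtain ⟨T, hT, h1, h2⟩ := ih' (y / a) (by rwa [le_div_iff₀ ha0, one_mul])
    have haT : a ∉ T := fun h => has' (hT h)
    refine ⟨insert a T, Finset.insert_subset_insert a hT, ?_, ?_⟩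
    · rw [Finset.prod_insert haT]
      rw [le_div_iff₀ ha0] at h1
      linarith
    · rcases h2 with rfl | h2
      · exact Or.inl rfl
      · right
        rw [Finset.prod_insert haT]
        rw [div_lt_iff₀ ha0] at h2
        linarith
  · obtain ⟨T, hT, h1, h2⟩ := ih' y hy
    refine ⟨T, hT.trans (Finset.subset_insert a s), h1, ?_⟩
    rcases h2 with rfl | h2
    · right
      linarith
    · exact Or.inr h2

/-- The number of elements of a set of positive numbers. -/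
lemma fac_le_prod (S : Finset ℕ) : (∀ p ∈ S, 0 < p) → S.card.factorial ≤ ∏ q ∈ S, q := by
  classical
  refine Finset.induction_on_max S (by simp) ?_
  intro a s has ih hpos
  have has' : a ∉ s := fun h => lt_irrefl a (has a h)
  rw [Finset.card_insert_of_notMem has', Finset.prod_insert has', Nat.factorial_succ]
  refine Nat.mul_le_mul ?_ (ih fun p hp => hpos p (Finset.mem_insert_of_mem hp))
  have h1 : s ⊆ Finset.Ico 1 a := by
    intro p hp
    rw [Finset.mem_Ico]
    exact ⟨hpos p (Finset.mem_insert_of_mem hp), has p hp⟩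
  have h2 := Finset.card_le_card h1
  rw [Nat.card_Ico] at h2
  have h3 := hpos a (Finset.mem_insert_self a s)
  omega

end Pool.Agent.H11.GIU
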