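import Mathlib

/-!
# Numbers with many prime factors in a dyadic block
-/

set_option autoImplicit false

open Finset

namespace Pool.Agent.H11.GIU

/-- `m` has at least `b` prime factors in some dyadic block. -/
def Q (m b : ℕ) : Prop := ∃ s : ℕ, b ≤ (m.primeFactors.filter (fun q => Nat.log 2 q = s)).card

/-- The primes in a dyadic block. -/
def Ps (s : ℕ) : Finset ℕ := (Finset.Ico (2 ^ s) (2 ^ (s + 1))).filter Nat.Prime

lemma card_Ps (s : ℕ) : s * (Ps s).card ≤ 4 * 2 ^ s := by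
  have h1 : ∏ p ∈ Ps s, p ≤ primorial (2 ^ (s + 1)) := by
    unfold primorial
    refine Finset.prod_le_prod_of_subset_of_one_le' ?_ ?_
    · intro p hp
      rw [Ps, Finset.mem_filter, Finset.mem_Ico] at hp
      rw [Finset.mem_filter, Finset.mem_range]
      exact ⟨by omega, hp.2⟩
    · intro p hp _
      rw [Finset.mem_filter] at hp
      exact hp.2.one_le
  have h2 : (2 ^ s) ^ (Ps s).card ≤ ∏ p ∈ Ps s, p := by
    rw [← Finset.prod_const]
    refine Finset.prod_le_prod' fun p hp => ?_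
    rw [Ps, Finset.mem_filter, Finset.mem_Ico] at hp
    exact hp.1.1
  have h3 : (2 ^ s) ^ (Ps s).card ≤ 2 ^ (4 * 2 ^ s) := by
    refine (h2.trans h1).trans ((primorial_le_four_pow _).trans (le_of_eq ?_))
    rw [show (4 : ℕ) = 2 ^ 2 by norm_num, ← pow_mul]
    congr 1
    ring
  rw [← pow_mul] at h3
  exact (Nat.pow_le_pow_iff_right (by norm_num)).mp h3

open Classical in
/-- Counting. -/
theorem card_Q (Y b : ℕ) (hb : 1 ≤ b) :
    (((Finset.Ioc 0 Y).filter (fun m => Q m b)).card : ℝ) ≤ Y * (2 * 4 ^ b / b.factorial) := by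
  have hf0 : (0 : ℝ) < b.factorial := by exact_mod_cast b.factorial_pos
  rcases Nat.lt_or_ge b 2 with hb1 | hb2
  · have : b = 1 := by omega
    subst this
    have h1 : (((Finset.Ioc 0 Y).filter (fun m => Q m 1)).card : ℝ) ≤ Y := by
      have := Finset.card_filter_le (Finset.Ioc 0 Y) (fun m => Q m 1)
      rw [Nat.card_Ioc, Nat.sub_zero] at this
      exact_mod_cast this
    refine h1.trans ?_
    have : (0 : ℝ) ≤ Y := Nat.cast_nonneg Y
    norm_num
    linarith
  -- the covering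
  have hcov : (Finset.Ioc 0 Y).filter (fun m => Q m b) ⊆ (Finset.Ioo 0 (Y + 1)).biUnion (fun s =>
      ((Ps s).powersetCard b).biUnion (fun B => (Finset.Ioc 0 Y).filter (fun m => ∏ p ∈ B, p ∣ m))) := by
    intro m hm
    rw [Finset.mem_filter] at hm
    obtain ⟨hmY, s, hs⟩ := hm
    obtain ⟨B, hB1, hB2⟩ := Finset.exists_subset_card_eq hs
    have hBp : ∀ q ∈ B, q.Prime ∧ q ∣ m ∧ Nat.log 2 q = s := fun q hq => by
      have := Finset.mem_filter.mp (hB1 hq)
      exact ⟨Nat.prime_of_mem_primeFactors this.1, Nat.dvd_of_mem_primeFactors this.1, this.2⟩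
    have hBs : B ⊆ Ps s := by
      intro q hq
      obtain ⟨h1, h2, h3⟩ := hBp q hq
      rw [Ps, Finset.mem_filter, Finset.mem_Ico]
      refine ⟨⟨?_, ?_⟩, h1⟩
      · rw [← h3]
        exact Nat.pow_log_le_self 2 h1.pos.ne'
      · rw [← h3]
        exact Nat.lt_pow_succ_log_self (by norm_num) q
    have hBne : B.Nonempty := by
      rw [← Finset.card_pos]
      omega
    obtain ⟨q, hq⟩ := hBne
    obtain ⟨h1, h2, h3⟩ := hBp q hq
    have hm0 : 0 < m := (Finset.mem_Ioc.mp hmY).1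
    rw [Finset.mem_biUnion]
    refine ⟨s, ?_, ?_⟩
    · rw [Finset.mem_Ioo]
      constructor
      · rw [← h3]
        exact Nat.log_pos (by norm_num) h1.two_le
      · rw [← h3]
        have h4 : Nat.log 2 q ≤ q := Nat.log_le_self 2 q
        have h5 : q ≤ m := Nat.le_of_dvd hm0 h2
        have h6 := (Finset.mem_Ioc.mp hmY).2
        omega
    · rw [Finset.mem_biUnion]
      refine ⟨B, ?_, ?_⟩
      · rw [Finset.mem_powersetCard]
        exact ⟨hBs, hB2⟩
      · rw [Finset.mem_filter]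
        refine ⟨hmY, ?_⟩
        exact Finset.prod_primes_dvd _ (fun q hq => (hBp q hq).1.prime) fun q hq => (hBp q hq).2.1
  have h1 : ((Finset.Ioc 0 Y).filter (fun m => Q m b)).card ≤
      ∑ s ∈ Finset.Ioo 0 (Y + 1), ∑ B ∈ (Ps s).powersetCard b, Y / ∏ p ∈ B, p := by
    refine (Finset.card_le_card hcov).trans (Finset.card_biUnion_le.trans
      (Finset.sum_le_sum fun s _ => Finset.card_biUnion_le.trans (Finset.sum_le_sum fun B _ => ?_)))
    rw [Nat.Ioc_filter_dvd_card_eq_div]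
  have h2 : (((Finset.Ioc 0 Y).filter (fun m => Q m b)).card : ℝ) ≤
      ∑ s ∈ Finset.Ioo 0 (Y + 1), (Y : ℝ) * (4 ^ b / b.factorial) * (((s : ℝ)) ^ 2)⁻¹ := by
    refine le_trans (by exact_mod_cast h1 : _ ≤
      ((∑ s ∈ Finset.Ioo 0 (Y + 1), ∑ B ∈ (Ps s).powersetCard b, Y / ∏ p ∈ B, p : ℕ) : ℝ)) ?_
    push_cast
    refine Finset.sum_le_sum fun s hs => ?_
    have hs0 : 0 < s := (Finset.mem_Ioo.mp hs).1
    have hsr : (1 : ℝ) ≤ s := by exact_mod_cast hs0
    have h3 : ∀ B ∈ (Ps s).powersetCard b, ((Y / ∏ p ∈ B, p : ℕ) : ℝ) ≤ Y / ((2 : ℝ) ^ s) ^ b := by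
      intro B hB
      rw [Finset.mem_powersetCard] at hB
      refine Nat.cast_div_le.trans ?_
      refine div_le_div_of_nonneg_left (Nat.cast_nonneg Y) (by positivity) ?_
      push_cast
      rw [← hB.2, ← Finset.prod_const]
      refine Finset.prod_le_prod (fun p _ => by positivity) fun p hp => ?_
      have h4 := hB.1 hp
      rw [Ps, Finset.mem_filter, Finset.mem_Ico] at h4
      exact_mod_cast h4.1.1
    calc ∑ B ∈ (Ps s).powersetCard b, ((Y / ∏ p ∈ B, p : ℕ) : ℝ)
        ≤ ∑ _B ∈ (Ps s).powersetCard b, (Y : ℝ) / ((2 : ℝ) ^ s) ^ b := Finset.sum_le_sum h3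
      _ = ((Ps s).card.choose b : ℝ) * (Y / ((2 : ℝ) ^ s) ^ b) := by
          rw [Finset.sum_const, Finset.card_powersetCard, nsmul_eq_mul]
      _ ≤ (((Ps s).card : ℝ) ^ b / b.factorial) * (Y / ((2 : ℝ) ^ s) ^ b) := by
          refine mul_le_mul_of_nonneg_right (Nat.choose_le_pow_div b (Ps s).card) (by positivity)
      _ ≤ ((4 * 2 ^ s / s : ℝ) ^ b / b.factorial) * (Y / ((2 : ℝ) ^ s) ^ b) := by
          refine mul_le_mul_of_nonneg_right (div_le_div_of_nonneg_right ?_ hf0.le) (by positivity)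
          refine pow_le_pow_left₀ (Nat.cast_nonneg _) ?_ b
          rw [le_div_iff₀ (by linarith)]
          have := card_Ps s
          have h5 : ((s * (Ps s).card : ℕ) : ℝ) ≤ ((4 * 2 ^ s : ℕ) : ℝ) := by exact_mod_cast this
          push_cast at h5
          linarith
      _ = (Y : ℝ) * (4 ^ b / b.factorial) * ((s : ℝ) ^ b)⁻¹ := by
          rw [div_pow, mul_pow]
          field_simp
      _ ≤ (Y : ℝ) * (4 ^ b / b.factorial) * ((s : ℝ) ^ 2)⁻¹ := by
          refine mul_le_mul_of_nonneg_left ?_ (by positivity)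
          exact inv_anti₀ (by positivity) (pow_le_pow_right₀ hsr hb2)
  have h6 := sum_Ioo_inv_sq_le (α := ℝ) 0 (Y + 1)
  rw [← Finset.mul_sum] at h2
  refine h2.trans ?_
  have h7 : (Y : ℝ) * (4 ^ b / b.factorial) * ∑ i ∈ Finset.Ioo 0 (Y + 1), ((i : ℝ) ^ 2)⁻¹ ≤
      (Y : ℝ) * (4 ^ b / b.factorial) * (2 / ((0 : ℕ) + 1)) :=
    mul_le_mul_of_nonneg_left h6 (by positivity)
  refine h7.trans (le_of_eq ?_)
  push_cast
  ring

end Pool.Agent.H11.GIU
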