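import Pool.Agent.H11.GIU.Basic

/-!
# Giuga numbers: the large prime factors
-/

set_option autoImplicit false

open Finset

namespace Pool.Agent.H11.GIU

/-- The product of the large prime factors. -/
lemma Giu.core {n : ℕ} (h : Giu n) {p : ℕ} (hp : p ∈ n.primeFactors) :
    ∏ q ∈ n.primeFactors.filter (fun q => ¬ q < p), q <
      ∑ q ∈ n.primeFactors.filter (fun q => ¬ q < p), (n / q) := by
  classical
  have hn0 : 0 < n := by have := h.1; omega
  have hpp := Nat.prime_of_mem_primeFactors hp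
  have hpn := Nat.dvd_of_mem_primeFactors hp
  obtain ⟨S, hS⟩ : ∃ S, S = n.primeFactors := ⟨_, rfl⟩
  have hSp : ∀ q ∈ S, q.Prime := fun q hq => Nat.prime_of_mem_primeFactors (hS ▸ hq)
  have hSn : ∀ q ∈ S, q ∣ n := fun q hq => Nat.dvd_of_mem_primeFactors (hS ▸ hq)
  have hprod : (∏ q ∈ S.filter (· < p), q) * ∏ q ∈ S.filter (fun q => ¬ q < p), q = n := by
    rw [Finset.prod_filter_mul_prod_filter_not, hS, Nat.prod_primeFactors_of_squarefree h.sq]
  obtain ⟨V, hV⟩ : ∃ V, V = S.filter (fun q => ¬ q < p) := ⟨_, rfl⟩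
  rw [← hV] at hprod
  have hpV : p ∈ V := by
    rw [hV, Finset.mem_filter]
    exact ⟨hS ▸ hp, lt_irrefl p⟩
  have hVS : ∀ q ∈ V, q ∈ S := fun q hq => by
    rw [hV] at hq
    exact (Finset.mem_filter.mp hq).1
  have hVp : ∀ q ∈ V, p ≤ q := fun q hq => by
    rw [hV] at hq
    exact not_lt.mp (Finset.mem_filter.mp hq).2
  -- divisibility
  have hdiv : ((∏ q ∈ V, q : ℕ) : ℤ) ∣ (∑ q ∈ V, ((n / q : ℕ) : ℤ)) - 1 := by
    refine prod_dvd (fun q hq => hSp q (hVS q hq)) fun q hq => ?_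
    rw [← Finset.add_sum_erase V _ hq]
    have h1 := h.int (hSp q (hVS q hq)) (hSn q (hVS q hq))
    have h2 : (q : ℤ) ∣ ∑ r ∈ V.erase q, ((n / r : ℕ) : ℤ) := by
      refine Finset.dvd_sum fun r hr => ?_
      rw [Int.natCast_dvd_natCast]
      have hrV := Finset.mem_of_mem_erase hr
      have hrq : r ≠ q := Finset.ne_of_mem_erase hr
      have hrp := hSp r (hVS r hrV)
      have hco : Nat.Coprime q r := (Nat.coprime_primes (hSp q (hVS q hq)) hrp).mpr hrq.symm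
      obtain ⟨c, hc⟩ := hSn r (hVS r hrV)
      rw [hc, Nat.mul_div_cancel_left _ hrp.pos]
      have h3 : q ∣ r * c := hc ▸ hSn q (hVS q hq)
      exact hco.dvd_of_dvd_mul_left h3
    have := dvd_add h1 h2
    have e : ((n / q : ℕ) : ℤ) + ∑ r ∈ V.erase q, ((n / r : ℕ) : ℤ) - 1 =
      ((n / q : ℕ) : ℤ) - 1 + ∑ r ∈ V.erase q, ((n / r : ℕ) : ℤ) := by ring
    rw [e]
    exact this
  -- size
  have hge : (2 : ℤ) ≤ ∑ q ∈ V, ((n / q : ℕ) : ℤ) := by
    have h1 : 2 ≤ n / p := by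
      obtain ⟨c, hc⟩ := hpn
      rw [hc, Nat.mul_div_cancel_left _ hpp.pos]
      have hc0 : c ≠ 0 := by
        rintro rfl
        rw [mul_zero] at hc
        omega
      have hc1 : c ≠ 1 := by
        rintro rfl
        rw [mul_one] at hc
        exact h.2.1 (hc ▸ hpp)
      omega
    have h2 : ((n / p : ℕ) : ℤ) ≤ ∑ q ∈ V, ((n / q : ℕ) : ℤ) :=
      Finset.single_le_sum (f := fun q => ((n / q : ℕ) : ℤ)) (fun q _ => by positivity) hpV
    have : (2 : ℤ) ≤ ((n / p : ℕ) : ℤ) := by exact_mod_cast h1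
    omega
  have hle := Int.le_of_dvd (by omega) hdiv
  rw [← hS, ← hV]
  have h1 : ((∏ q ∈ V, q : ℕ) : ℤ) < ((∑ q ∈ V, (n / q) : ℕ) : ℤ) := by
    push_cast
    push_cast at hle
    linarith
  exact_mod_cast h1

end Pool.Agent.H11.GIU
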