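import Pool.Agent.H11.GIU.Root

/-!
# The number of Giuga numbers up to `x`
-/

set_option autoImplicit false

open Finset

namespace Pool.Agent.H11.GIU

open Classical in
lemma card_div (X D K : ℕ) (hD : 0 < D) :
    ((Finset.Ioc 0 X).filter (fun n => Giu n ∧ D ∣ n ∧ n < K * D ^ 2)).card ≤ K := by
  conv_rhs => rw [← Finset.card_range K]
  refine Finset.card_le_card_of_injOn (fun n => n / D ^ 2) ?_ ?_
  · intro n hn
    have hn' := (Finset.mem_filter.mp (Finset.mem_coe.mp hn)).2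
    simp only [Finset.coe_range, Set.mem_Iio]
    exact (Nat.div_lt_iff_lt_mul (by positivity)).mpr hn'.2.2
  · intro n₁ h₁ n₂ h₂ h
    have h₁' := (Finset.mem_filter.mp (Finset.mem_coe.mp h₁)).2
    have h₂' := (Finset.mem_filter.mp (Finset.mem_coe.mp h₂)).2
    have hm : n₁ % D ^ 2 = n₂ % D ^ 2 := h₁'.1.modEq h₂'.1 h₁'.2.1 h₂'.2.1
    have h' : n₁ / D ^ 2 = n₂ / D ^ 2 := h
    rw [← Nat.div_add_mod n₁ (D ^ 2), ← Nat.div_add_mod n₂ (D ^ 2), h', hm]

lemma sq_le_two_pow (b : ℕ) : b ^ 2 ≤ 2 * 2 ^ b := by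
  induction b with
  | zero => norm_num
  | succ b ih =>
    rcases Nat.lt_or_ge b 3 with h | h
    · interval_cases b <;> norm_num
    · have : (b + 1) ^ 2 ≤ 2 * b ^ 2 := by nlinarith
      rw [pow_succ 2 b]
      omega

open Classical in
theorem count_nat (X : ℕ) :
    (((Finset.Ioc 0 X).filter Giu).card : ℝ) ≤ 10 ^ 6 * √X := by
  obtain ⟨Z, hZ⟩ : ∃ Z : ℝ, Z = √X := ⟨_, rfl⟩
  have hZ0 : 0 ≤ Z := by rw [hZ]; positivity
  have hZZ : Z ^ 2 = X := by rw [hZ, Real.sq_sqrt (Nat.cast_nonneg X)]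
  rw [← hZ]
  obtain ⟨A, hA⟩ : ∃ A : ℕ → Finset ℕ, A = fun b => (Finset.Ioc 0 ⌊Z⌋₊).filter (fun m => Q m b) :=
    ⟨_, rfl⟩
  obtain ⟨E, hE⟩ : ∃ E : ℕ → Finset ℕ,
    E = fun b : ℕ => (Finset.Ioc 0 ⌊8 * (b : ℝ) * Z⌋₊).filter (fun m => Q m b) := ⟨_, rfl⟩
  have hcov : (Finset.Ioc 0 X).filter Giu ⊆ (Finset.Icc 1 X).biUnion (fun b =>
      ((A b).biUnion (fun D => (Finset.Ioc 0 X).filter
        (fun n => Giu n ∧ D ∣ n ∧ n < (64 * b ^ 2) * D ^ 2))) ∪
      ((E b).biUnion (fun D => (Finset.Ioc 0 X).filter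
        (fun n => Giu n ∧ D ∣ n ∧ n < 2 * D ^ 2)))) := by
    intro n hn
    rw [Finset.mem_filter] at hn
    obtain ⟨hnX, hg⟩ := hn
    have hnX' := Finset.mem_Ioc.mp hnX
    obtain ⟨b, hb1, hbn, hb⟩ := exists_div hg
    have hnr : (n : ℝ) ≤ Z ^ 2 := by
      rw [hZZ]
      exact_mod_cast hnX'.2
    rw [Finset.mem_biUnion]
    refine ⟨b, Finset.mem_Icc.mpr ⟨hb1, hbn.trans hnX'.2⟩, ?_⟩
    rw [Finset.mem_union]
    rcases hb with ⟨D, h1, h2, h3, h4⟩ | ⟨e, h1, h2, h3, h4⟩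
    · left
      rw [Finset.mem_biUnion]
      have hD0 : 0 < D := Nat.pos_of_dvd_of_pos h1 hnX'.1
      refine ⟨D, ?_, Finset.mem_filter.mpr ⟨hnX, hg, h1, h4⟩⟩
      rw [hA, Finset.mem_filter, Finset.mem_Ioc]
      refine ⟨⟨hD0, Nat.le_floor ?_⟩, h2⟩
      have h5 : (D : ℝ) ^ 2 ≤ Z ^ 2 := le_trans (by exact_mod_cast h3) hnr
      exact (pow_le_pow_iff_left₀ (Nat.cast_nonneg D) hZ0 (by norm_num)).mp h5
    · right
      rw [Finset.mem_biUnion]
      have he0 : 0 < e := Nat.pos_of_dvd_of_pos h1 hnX'.1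
      refine ⟨e, ?_, Finset.mem_filter.mpr ⟨hnX, hg, h1, ?_⟩⟩
      · rw [hE, Finset.mem_filter, Finset.mem_Ioc]
        refine ⟨⟨he0, Nat.le_floor ?_⟩, h2⟩
        have h5 : (e : ℝ) ^ 2 ≤ (8 * b * Z) ^ 2 := by
          calc (e : ℝ) ^ 2 ≤ 64 * b ^ 2 * n := by exact_mod_cast h4.le
            _ ≤ 64 * b ^ 2 * Z ^ 2 := mul_le_mul_of_nonneg_left hnr (by positivity)
            _ = (8 * b * Z) ^ 2 := by ring
        exact (pow_le_pow_iff_left₀ (Nat.cast_nonneg e) (by positivity) (by norm_num)).mp h5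
      · have : 0 < e ^ 2 := by positivity
        omega
  have h1 : ((Finset.Ioc 0 X).filter Giu).card ≤
      ∑ b ∈ Finset.Icc 1 X, ((A b).card * (64 * b ^ 2) + (E b).card * 2) := by
    refine (Finset.card_le_card hcov).trans (Finset.card_biUnion_le.trans
      (Finset.sum_le_sum fun b _ => (Finset.card_union_le _ _).trans (Nat.add_le_add ?_ ?_)))
    · refine Finset.card_biUnion_le_card_mul _ _ _ fun D hD => card_div X D _ ?_
      rw [hA, Finset.mem_filter, Finset.mem_Ioc] at hD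
      exact hD.1.1
    · refine Finset.card_biUnion_le_card_mul _ _ _ fun D hD => card_div X D _ ?_
      rw [hE, Finset.mem_filter, Finset.mem_Ioc] at hD
      exact hD.1.1
  have h2 : (((Finset.Ioc 0 X).filter Giu).card : ℝ) ≤
      ∑ b ∈ Finset.Icc 1 X, 320 * Z * (8 ^ b / b.factorial) := by
    refine le_trans (by exact_mod_cast h1 : _ ≤
      ((∑ b ∈ Finset.Icc 1 X, ((A b).card * (64 * b ^ 2) + (E b).card * 2) : ℕ) : ℝ)) ?_
    push_cast
    refine Finset.sum_le_sum fun b hb => ?_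
    have hb1 := (Finset.mem_Icc.mp hb).1
    have hbr : (1 : ℝ) ≤ b := by exact_mod_cast hb1
    have hf0 : (0 : ℝ) < b.factorial := by exact_mod_cast b.factorial_pos
    have hAc : ((A b).card : ℝ) ≤ Z * (2 * 4 ^ b / b.factorial) := by
      rw [hA]
      refine (card_Q ⌊Z⌋₊ b hb1).trans (mul_le_mul_of_nonneg_right ?_ (by positivity))
      exact Nat.floor_le hZ0
    have hEc : ((E b).card : ℝ) ≤ 8 * b * Z * (2 * 4 ^ b / b.factorial) := by
      rw [hE]
      refine (card_Q ⌊8 * b * Z⌋₊ b hb1).trans (mul_le_mul_of_nonneg_right ?_ (by positivity))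
      exact Nat.floor_le (by positivity)
    have hsq : (b : ℝ) ^ 2 ≤ 2 * 2 ^ b := by exact_mod_cast sq_le_two_pow b
    have hb2 : (b : ℝ) ≤ b ^ 2 := by nlinarith
    calc ((A b).card : ℝ) * (64 * b ^ 2) + (E b).card * 2
        ≤ Z * (2 * 4 ^ b / b.factorial) * (64 * b ^ 2) +
            8 * b * Z * (2 * 4 ^ b / b.factorial) * 2 := by
          refine add_le_add (mul_le_mul_of_nonneg_right hAc (by positivity))
            (mul_le_mul_of_nonneg_right hEc (by norm_num))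
      _ = Z * (4 ^ b / b.factorial) * (128 * b ^ 2 + 32 * b) := by ring
      _ ≤ Z * (4 ^ b / b.factorial) * (160 * (2 * 2 ^ b)) := by
          refine mul_le_mul_of_nonneg_left ?_ (by positivity)
          linarith
      _ = 320 * Z * (8 ^ b / b.factorial) := by
          rw [show (8 : ℝ) = 4 * 2 by norm_num, mul_pow]
          ring
  have h3 : ∑ b ∈ Finset.Icc 1 X, ((8 : ℝ) ^ b / b.factorial) ≤ Real.exp 8 := by
    refine le_trans ?_ (Real.sum_le_exp_of_nonneg (by norm_num : (0 : ℝ) ≤ 8) (X + 1))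
    refine Finset.sum_le_sum_of_subset_of_nonneg ?_ fun b _ _ => by positivity
    intro b hb
    rw [Finset.mem_Icc] at hb
    rw [Finset.mem_range]
    omega
  have h4 : Real.exp 8 ≤ 3000 := by
    have h5 : Real.exp 8 = Real.exp 1 ^ 8 := by
      rw [← Real.exp_nat_mul]
      norm_num
    rw [h5]
    have h6 := Real.exp_one_lt_d9
    calc Real.exp 1 ^ 8 ≤ 2.7182818286 ^ 8 := pow_le_pow_left₀ (Real.exp_pos 1).le h6.le 8
      _ ≤ 3000 := by norm_num
  rw [← Finset.mul_sum] at h2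
  calc (((Finset.Ioc 0 X).filter Giu).card : ℝ) ≤ 320 * Z * 3000 :=
        h2.trans (mul_le_mul_of_nonneg_left (h3.trans h4) (by positivity))
    _ ≤ 10 ^ 6 * Z := by nlinarith

/-- The set of Giuga numbers up to `x`. -/
theorem count_root (x : ℝ) (hx : 0 ≤ x) :
    ({n : ℕ | (n : ℝ) ≤ x ∧ Giu n}.ncard : ℝ) ≤ 10 ^ 6 * √x := by
  classical
  have h1 : {n : ℕ | (n : ℝ) ≤ x ∧ Giu n} = ((Finset.Ioc 0 ⌊x⌋₊).filter Giu : Finset ℕ) := by
    ext n
    simp only [Set.mem_ofPred_eq, Finset.coe_filter, Finset.mem_Ioc]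
    constructor
    · rintro ⟨h1, h2⟩
      refine ⟨⟨?_, Nat.le_floor h1⟩, h2⟩
      have := h2.1
      omega
    · rintro ⟨⟨_, h1⟩, h2⟩
      exact ⟨(Nat.le_floor_iff hx).mp h1, h2⟩
  rw [h1, Set.ncard_coe_finset]
  refine (count_nat ⌊x⌋₊).trans (mul_le_mul_of_nonneg_left ?_ (by norm_num))
  exact Real.sqrt_le_sqrt (Nat.floor_le hx)

end Pool.Agent.H11.GIU
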