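import Pool.Agent.H11.GIU.Core
import Pool.Agent.H11.GIU.Blocks

/-!
# The number of Giuga numbers up to `x` is at most a constant times the square root of `x`
-/

set_option autoImplicit false

open Finset

namespace Pool.Agent.H11.GIU

/-- Dense divisors: a greedy choice. -/
lemma greedy2 (S : Finset ℕ) : (∀ p ∈ S, 0 < p) → ∀ y : ℝ, 1 ≤ y → ∃ T ⊆ S,
    ∏ q ∈ T, (q : ℝ) ≤ y ∧ (T = S ∨ ∃ p ∈ S, y * ∏ q ∈ S.filter (· < p), (q : ℝ) <
      p * ∏ q ∈ T, (q : ℝ)) := by
  classical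
  refine Finset.induction_on_max S (fun _ y hy => ⟨∅, subset_rfl, by simpa using hy, Or.inl rfl⟩) ?_
  intro a s has ih hpos y hy
  have hfil : ∀ p ∈ s, (insert a s).filter (· < p) = s.filter (· < p) := by
    intro p hp
    rw [Finset.filter_insert, if_neg (not_lt.mpr (has p hp).le)]
  have hfila : (insert a s).filter (· < a) = s := by
    rw [Finset.filter_insert, if_neg (lt_irrefl a)]
    exact Finset.filter_true_of_mem has
  have has' : a ∉ s := fun h => lt_irrefl a (has a h)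
  have ha0 : (0 : ℝ) < a := by exact_mod_cast hpos a (Finset.mem_insert_self a s)
  have ih' := ih (fun p hp => hpos p (Finset.mem_insert_of_mem hp))
  rcases le_or_gt (a : ℝ) y with h | h
  · obtain ⟨T, hT, h1, h2⟩ := ih' (y / a) (by rwa [le_div_iff₀ ha0, one_mul])
    have haT : a ∉ T := fun h => has' (hT h)
    refine ⟨insert a T, Finset.insert_subset_insert a hT, ?_, ?_⟩
    · rw [Finset.prod_insert haT]
      rw [le_div_iff₀ ha0] at h1
      linarith
    · rcases h2 with rfl | ⟨p, hp, h2⟩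
      · exact Or.inl rfl
      · right
        refine ⟨p, Finset.mem_insert_of_mem hp, ?_⟩
        rw [Finset.prod_insert haT, hfil p hp]
        rw [div_mul_eq_mul_div, div_lt_iff₀ ha0] at h2
        linarith
  · obtain ⟨T, hT, h1, h2⟩ := ih' y hy
    refine ⟨T, hT.trans (Finset.subset_insert a s), h1, Or.inr ?_⟩
    rcases h2 with rfl | ⟨p, hp, h2⟩
    · refine ⟨a, Finset.mem_insert_self a T, ?_⟩
      rw [hfila]
      refine mul_lt_mul_of_pos_right h ?_
      exact Finset.prod_pos fun q hq => by exact_mod_cast hpos q (Finset.mem_insert_of_mem hq)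
    · refine ⟨p, Finset.mem_insert_of_mem hp, ?_⟩
      rw [hfil p hp]
      exact h2

/-- If no dyadic block has many elements, the sum of `p / q` over `q ≥ p` is small. -/
lemma block (V : Finset ℕ) {p b : ℕ} (hp : 0 < p) (hV : ∀ q ∈ V, p ≤ q)
    (hb : ∀ s, (V.filter (fun q => Nat.log 2 q = s)).card ≤ b) :
    ∑ q ∈ V, (p : ℝ) / q ≤ 4 * b := by
  classical
  obtain ⟨s₀, hs₀⟩ : ∃ s₀, s₀ = Nat.log 2 p := ⟨_, rfl⟩
  obtain ⟨K, hK⟩ : ∃ K, K = V.sup id + s₀ + 1 := ⟨_, rfl⟩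
  have hpl : (p : ℝ) ≤ 2 ^ (s₀ + 1) := by
    have := Nat.lt_pow_succ_log_self (b := 2) (by norm_num) p
    rw [← hs₀] at this
    exact_mod_cast this.le
  have hmaps : ∀ q ∈ V, Nat.log 2 q ∈ Finset.Ico s₀ K := by
    intro q hq
    rw [Finset.mem_Ico]
    constructor
    · rw [hs₀]
      exact Nat.log_mono_right (hV q hq)
    · have h1 : q ≤ V.sup id := Finset.le_sup (f := id) hq
      have h2 : Nat.log 2 q ≤ q := Nat.log_le_self 2 q
      omega
  rw [← Finset.sum_fiberwise_of_maps_to hmaps]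
  have h1 : ∀ s ∈ Finset.Ico s₀ K, ∑ q ∈ V.filter (fun q => Nat.log 2 q = s), (p : ℝ) / q ≤
      b * (2 ^ (s₀ + 1) / 2 ^ s) := by
    intro s _
    calc ∑ q ∈ V.filter (fun q => Nat.log 2 q = s), (p : ℝ) / q
        ≤ ∑ _q ∈ V.filter (fun q => Nat.log 2 q = s), (2 : ℝ) ^ (s₀ + 1) / 2 ^ s := by
          refine Finset.sum_le_sum fun q hq => ?_
          rw [Finset.mem_filter] at hq
          have hq0 : q ≠ 0 := by
            have := hV q hq.1
            omega
          have h2 := Nat.pow_log_le_self 2 hq0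
          rw [hq.2] at h2
          have h3 : ((2 : ℝ) ^ s) ≤ q := by exact_mod_cast h2
          exact div_le_div₀ (by positivity) hpl (by positivity) h3
      _ = (V.filter (fun q => Nat.log 2 q = s)).card * ((2 : ℝ) ^ (s₀ + 1) / 2 ^ s) := by
          rw [Finset.sum_const, nsmul_eq_mul]
      _ ≤ b * ((2 : ℝ) ^ (s₀ + 1) / 2 ^ s) := by
          refine mul_le_mul_of_nonneg_right (by exact_mod_cast hb s) (by positivity)
  refine (Finset.sum_le_sum h1).trans ?_
  rw [← Finset.mul_sum, Finset.sum_Ico_eq_sum_range]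
  have h2 : ∑ k ∈ Finset.range (K - s₀), (2 : ℝ) ^ (s₀ + 1) / 2 ^ (s₀ + k) ≤ 4 := by
    calc ∑ k ∈ Finset.range (K - s₀), (2 : ℝ) ^ (s₀ + 1) / 2 ^ (s₀ + k)
        = 2 * ∑ k ∈ Finset.range (K - s₀), (1 / (2 : ℝ)) ^ k := by
          rw [Finset.mul_sum]
          refine Finset.sum_congr rfl fun k _ => ?_
          rw [pow_succ, pow_add, one_div, inv_pow]
          field_simp
      _ ≤ 4 := by
          have := sum_geometric_two_le (K - s₀)
          linarith
  calc (b : ℝ) * ∑ k ∈ Finset.range (K - s₀), (2 : ℝ) ^ (s₀ + 1) / 2 ^ (s₀ + k) ≤ b * 4 :=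
        mul_le_mul_of_nonneg_left h2 (Nat.cast_nonneg b)
    _ = 4 * b := by ring

/-- Every Giuga number has a divisor near its square root, and it or its cofactor has many prime
factors in a block if it is not very near. -/
theorem exists_div {n : ℕ} (h : Giu n) : ∃ b : ℕ, 1 ≤ b ∧ b ≤ n ∧
    ((∃ D : ℕ, D ∣ n ∧ Q D b ∧ D ^ 2 ≤ n ∧ n < 64 * b ^ 2 * D ^ 2) ∨
      (∃ e : ℕ, e ∣ n ∧ Q e b ∧ n ≤ e ^ 2 ∧ e ^ 2 < 64 * b ^ 2 * n)) := by
  classical
  have hn1 := h.1
  have hn0 : 0 < n := by omega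
  obtain ⟨S, hS⟩ : ∃ S, S = n.primeFactors := ⟨_, rfl⟩
  have hSp : ∀ q ∈ S, q.Prime := fun q hq => Nat.prime_of_mem_primeFactors (hS ▸ hq)
  have hSn : ∀ q ∈ S, q ∣ n := fun q hq => Nat.dvd_of_mem_primeFactors (hS ▸ hq)
  have hSprod : ∏ q ∈ S, q = n := by rw [hS, Nat.prod_primeFactors_of_squarefree h.sq]
  have hnr : (1 : ℝ) < n := by exact_mod_cast hn1
  obtain ⟨y, hy⟩ : ∃ y : ℝ, y = √n := ⟨_, rfl⟩
  have hy1 : 1 ≤ y := by
    rw [hy, Real.one_le_sqrt]
    exact hnr.le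
  have hyy : y ^ 2 = n := by
    rw [hy, Real.sq_sqrt (by linarith)]
  have hyn : y < n := by nlinarith
  obtain ⟨T, hTS, hT1, hT2⟩ := greedy2 S (fun p hp => (hSp p hp).pos) y hy1
  have hTne : T ≠ S := by
    rintro rfl
    have : (∏ q ∈ T, (q : ℝ)) = n := by
      rw [← hSprod]
      push_cast
      rfl
    linarith
  obtain ⟨p, hpS, hp⟩ := hT2.resolve_left hTne
  have hp0 : 0 < p := (hSp p hpS).pos
  -- the blocks
  obtain ⟨s, hsI, hsmax⟩ := Finset.exists_max_image (S.image (Nat.log 2))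
    (fun s => (S.filter (fun q => Nat.log 2 q = s)).card) (⟨_, Finset.mem_image_of_mem _ hpS⟩)
  obtain ⟨β, hβ⟩ : ∃ β, β = (S.filter (fun q => Nat.log 2 q = s)).card := ⟨_, rfl⟩
  have hβmax : ∀ s', (S.filter (fun q => Nat.log 2 q = s')).card ≤ β := by
    intro s'
    by_cases hs' : s' ∈ S.image (Nat.log 2)
    · rw [hβ]
      exact hsmax s' hs'
    · have : S.filter (fun q => Nat.log 2 q = s') = ∅ := by
        rw [Finset.filter_eq_empty_iff]
        intro q hq hqs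
        exact hs' (Finset.mem_image.mpr ⟨q, hq, hqs⟩)
      rw [this, Finset.card_empty]
      exact Nat.zero_le _
  have hβ1 : 1 ≤ β := by
    refine le_trans ?_ (hβmax (Nat.log 2 p))
    rw [Nat.one_le_iff_ne_zero, ← Nat.pos_iff_ne_zero, Finset.card_pos]
    exact ⟨p, Finset.mem_filter.mpr ⟨hpS, rfl⟩⟩
  have hβn : β ≤ n := by
    rw [hβ]
    have h1 : S.filter (fun q => Nat.log 2 q = s) ⊆ Finset.Icc 1 n := by
      intro q hq
      have hq' := (Finset.mem_filter.mp hq).1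
      rw [Finset.mem_Icc]
      exact ⟨(hSp q hq').pos, Nat.le_of_dvd hn0 (hSn q hq')⟩
    have := Finset.card_le_card h1
    rwa [Nat.card_Icc, Nat.add_sub_cancel] at this
  -- the sum over the large primes
  obtain ⟨V, hV⟩ : ∃ V, V = S.filter (fun q => ¬ q < p) := ⟨_, rfl⟩
  have hVS : V ⊆ S := by rw [hV]; exact Finset.filter_subset _ _
  have hVp : ∀ q ∈ V, p ≤ q := fun q hq => by
    rw [hV] at hq
    exact not_lt.mp (Finset.mem_filter.mp hq).2
  have hJ : ∑ q ∈ V, (p : ℝ) / q ≤ 4 * β := by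
    refine block V hp0 hVp fun s' => le_trans (Finset.card_le_card ?_) (hβmax s')
    exact Finset.filter_subset_filter _ hVS
  obtain ⟨M, hM⟩ : ∃ M : ℝ, M = ∏ q ∈ S.filter (· < p), (q : ℝ) := ⟨_, rfl⟩
  have hM0 : 0 < M := by
    rw [hM]
    exact Finset.prod_pos fun q hq => by
      exact_mod_cast (hSp q (Finset.mem_filter.mp hq).1).pos
  have hMV : M * ∏ q ∈ V, (q : ℝ) = n := by
    rw [hM, hV, Finset.prod_filter_mul_prod_filter_not, ← hSprod]
    push_cast
    rfl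
  have hV0 : (0 : ℝ) < ∏ q ∈ V, (q : ℝ) :=
    Finset.prod_pos fun q hq => by exact_mod_cast (hSp q (hVS hq)).pos
  have hcore : (∏ q ∈ V, (q : ℝ)) < ∑ q ∈ V, (n : ℝ) / q := by
    have h1 := h.core (p := p) (hS ▸ hpS)
    rw [← hS, ← hV] at h1
    have h2 : ((∏ q ∈ V, q : ℕ) : ℝ) < ((∑ q ∈ V, (n / q) : ℕ) : ℝ) := by exact_mod_cast h1
    push_cast at h2
    refine h2.trans_le (Finset.sum_le_sum fun q _ => Nat.cast_div_le)
  have hpM : (p : ℝ) < M * (4 * β) := by
    have h1 : ∑ q ∈ V, (n : ℝ) / q = n / p * ∑ q ∈ V, (p : ℝ) / q := by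
      rw [Finset.mul_sum]
      refine Finset.sum_congr rfl fun q _ => ?_
      have : (p : ℝ) ≠ 0 := by exact_mod_cast hp0.ne'
      field_simp
    have hpr : (0 : ℝ) < p := by exact_mod_cast hp0
    have h2 : (∏ q ∈ V, (q : ℝ)) < n / p * (4 * β) := by
      rw [h1] at hcore
      exact hcore.trans_le (mul_le_mul_of_nonneg_left hJ (by positivity))
    rw [← hMV] at h2
    have h3 : (∏ q ∈ V, (q : ℝ)) * p < M * (4 * β) * ∏ q ∈ V, (q : ℝ) := by
      calc (∏ q ∈ V, (q : ℝ)) * p < (M * (∏ q ∈ V, (q : ℝ)) / p * (4 * β)) * p :=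
            mul_lt_mul_of_pos_right h2 hpr
        _ = M * (4 * β) * ∏ q ∈ V, (q : ℝ) := by field_simp
    nlinarith
  -- the divisor
  obtain ⟨D, hD⟩ : ∃ D, D = ∏ q ∈ T, q := ⟨_, rfl⟩
  have hDr : (D : ℝ) = ∏ q ∈ T, (q : ℝ) := by
    rw [hD]
    push_cast
    rfl
  have hTp : ∀ q ∈ T, q.Prime := fun q hq => hSp q (hTS hq)
  have hDT : D.primeFactors = T := by rw [hD, Nat.primeFactors_prod hTp]
  obtain ⟨e, he⟩ : ∃ e, e = ∏ q ∈ S \ T, q := ⟨_, rfl⟩
  have heT : e.primeFactors = S \ T := by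
    rw [he, Nat.primeFactors_prod fun q hq => hSp q (Finset.mem_sdiff.mp hq).1]
  have heD : e * D = n := by
    rw [he, hD, Finset.prod_sdiff hTS, hSprod]
  rw [← hDr] at hT1 hp
  rw [← hM] at hp
  have hD0 : (0 : ℝ) < D := by
    rw [hDr]
    exact Finset.prod_pos fun q hq => by exact_mod_cast (hTp q hq).pos
  have hyD : y < 4 * β * D := by
    have h1 : y * M < M * (4 * β) * D := hp.trans (mul_lt_mul_of_pos_right hpM hD0)
    have h2 : M * y < M * (4 * β * D) := by linarith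
    exact lt_of_mul_lt_mul_left h2 hM0.le
  have hD2 : D ^ 2 ≤ n := by
    have h1 : (D : ℝ) ^ 2 ≤ n := by
      rw [← hyy]
      exact pow_le_pow_left₀ hD0.le hT1 2
    exact_mod_cast h1
  -- the half
  obtain ⟨b, hb⟩ : ∃ b, b = (β + 1) / 2 := ⟨_, rfl⟩
  have hb1 : 1 ≤ b := by omega
  have hβb : β ≤ 2 * b := by omega
  have hnD : n < 64 * b ^ 2 * D ^ 2 := by
    have h1 : y < 8 * b * D := by
      have : (β : ℝ) ≤ 2 * b := by exact_mod_cast hβb
      nlinarith
    have h2 : (n : ℝ) < 64 * b ^ 2 * D ^ 2 := by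
      rw [← hyy]
      have h3 : y ^ 2 < (8 * b * D) ^ 2 := pow_lt_pow_left₀ h1 (by linarith) (by norm_num)
      nlinarith
    exact_mod_cast h2
  have hn2 : n ≤ e ^ 2 := by
    have h1 : D ≤ e := by
      by_contra hc
      rw [not_le] at hc
      have hD0' : 0 < D := by exact_mod_cast hD0
      nlinarith
    nlinarith
  have he2 : e ^ 2 < 64 * b ^ 2 * n := by
    have hD0' : 0 < D := by exact_mod_cast hD0
    have h1 : e ^ 2 * D ^ 2 = n ^ 2 := by
      rw [← mul_pow, heD]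
    have h2 : e ^ 2 * D ^ 2 < 64 * b ^ 2 * n * D ^ 2 := by
      rw [h1]
      calc n ^ 2 = n * n := pow_two n
        _ < n * (64 * b ^ 2 * D ^ 2) := Nat.mul_lt_mul_of_pos_left hnD hn0
        _ = 64 * b ^ 2 * n * D ^ 2 := by ring
    exact lt_of_mul_lt_mul_right h2 (Nat.zero_le _)
  refine ⟨b, hb1, by omega, ?_⟩
  have hsplit : (T.filter (fun q => Nat.log 2 q = s)).card +
      ((S \ T).filter (fun q => Nat.log 2 q = s)).card = β := by
    rw [hβ]
    conv_rhs => rw [← Finset.union_sdiff_of_subset hTS, Finset.filter_union]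
    rw [Finset.card_union_of_disjoint]
    exact Finset.disjoint_filter_filter Finset.disjoint_sdiff
  rcases Nat.lt_or_ge (T.filter (fun q => Nat.log 2 q = s)).card b with hc | hc
  · right
    refine ⟨e, ⟨D, heD.symm⟩, ⟨s, ?_⟩, hn2, he2⟩
    rw [heT]
    omega
  · left
    refine ⟨D, ⟨e, by rw [mul_comm]; exact heD.symm⟩, ⟨s, ?_⟩, hD2, hnD⟩
    rw [hDT]
    exact hc

end Pool.Agent.H11.GIU
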